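import Pool.Agent.H717.PM.Stm
import Pool.Agent.H962.PR.Mem
import Pool.Agent.H922.PR.Force
import Pool.Agent.H665.PR.No

/-!
# PM717 NOG: soundness for arbitrary four-point functions

The proofs are those of Pool.Agent.H494.PR.Force2 and Pool.Agent.H665.PR.No, with an arbitrary
function with the four-point condition in place of the distance of a tree.
-/

set_option autoImplicit false

namespace Pool.Agent.H190.PM

open Pool.Agent.NPC Pool.Agent.H622R2 Pool.Agent.V11227.BT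
open Pool.Agent.V11227.PC (FP Pat betweenness_of)
open Pool.Agent.H717.PR
open Pool.Agent.H665.PR (base0 base3 base4)

theorem adj_iff {I : Inst} {d : {w : VL // w ∈ vs I} → {w : VL // w ∈ vs I} → ℝ} {dmin dmax : ℝ}
    (h : ∀ w z, (gr I).Adj w z ↔ w ≠ z ∧ dmin ≤ d w z ∧ d w z ≤ dmax) {w z : VL} (hw : w ∈ vs I) (hz : z ∈ vs I) (hne : w ≠ z) :
    (adj w z = true ∨ adj z w = true) ↔
      (dmin ≤ d ⟨w, hw⟩ ⟨z, hz⟩ ∧ d ⟨w, hw⟩ ⟨z, hz⟩ ≤ dmax) := by
  have h1 := h ⟨w, hw⟩ ⟨z, hz⟩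
  have hne' : (⟨w, hw⟩ : {w : VL // w ∈ vs I}) ≠ ⟨z, hz⟩ := fun e => hne (congrArg Subtype.val e)
  constructor
  · intro h2
    exact (h1.1 ⟨hne', h2⟩).2
  · intro h2
    exact (h1.2 ⟨hne', h2⟩).2

theorem nadj {I : Inst} {d : {w : VL // w ∈ vs I} → {w : VL // w ∈ vs I} → ℝ} {dmin dmax : ℝ}
    (h : ∀ w z, (gr I).Adj w z ↔ w ≠ z ∧ dmin ≤ d w z ∧ d w z ≤ dmax) {w z : VL} (hw : w ∈ vs I) (hz : z ∈ vs I) (hne : w ≠ z)
    (h1 : adj w z = false) (h2 : adj z w = false) :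
    d ⟨w, hw⟩ ⟨z, hz⟩ < dmin ∨ dmax < d ⟨w, hw⟩ ⟨z, hz⟩ := by
  by_contra hcon
  push Not at hcon
  have := (adj_iff h hw hz hne).2 ⟨hcon.1, hcon.2⟩
  rw [h1, h2] at this
  simp at this

theorem gadget (hN : S_forceNear) {I : Inst} {d : {w : VL // w ∈ vs I} → {w : VL // w ∈ vs I} → ℝ} {dmin dmax : ℝ}
    (hFP : Pool.Agent.V11227.PC.FP d) (hle : dmin ≤ dmax)
    (h : ∀ w z, (gr I).Adj w z ↔ w ≠ z ∧ dmin ≤ d w z ∧ d w z ≤ dmax) (k : ℕ) (p : Lb × Lb) (hk : k = 1 ∨ k = 6 ∨ k = 10)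
    (m0 : (k, p) ∈ vs I) (m1 : (k + 1, p) ∈ vs I) (m2 : (k + 2, p) ∈ vs I) (m3 : (k + 3, p) ∈ vs I)
    (U V : VL) (hU : U ∈ vs I) (hV : V ∈ vs I) (hUk : U.1 = 0 ∨ U.1 = 5) (hVk : V.1 = 0 ∨ V.1 = 5)
    (hUV : U ≠ V) (aU : ∀ i < 4, adj (k + i, p) U = true) (aV : ∀ i < 4, adj (k + i, p) V = true)
    (n1 : adj U V = false) (n2 : adj V U = false) : d ⟨U, hU⟩ ⟨V, hV⟩ < dmin := by
  have neU : ∀ i < 4, ((k + i, p) : VL) ≠ U := by
    intro i hi e
    have := congrArg Prod.fst e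
    simp only at this
    omega
  have neV : ∀ i < 4, ((k + i, p) : VL) ≠ V := by
    intro i hi e
    have := congrArg Prod.fst e
    simp only at this
    omega
  have key : ∀ i < 4, ∀ hm : (k + i, p) ∈ vs I,
      d ⟨(k + i, p), hm⟩ ⟨U, hU⟩ ≤ dmax ∧ d ⟨(k + i, p), hm⟩ ⟨V, hV⟩ ≤ dmax := by
    intro i hi hm
    exact ⟨((adj_iff h hm hU (neU i hi)).1 (Or.inl (aU i hi))).2,
      ((adj_iff h hm hV (neV i hi)).1 (Or.inl (aV i hi))).2⟩
  have kk : ∀ i j : ℕ, i ≠ j → ((k + i, p) : VL) ≠ (k + j, p) := by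
    intro i j hij e
    have := congrArg Prod.fst e
    simp only at this
    omega
  refine hN _ d dmin dmax hFP hle ⟨U, hU⟩ ⟨V, hV⟩ ⟨(k, p), m0⟩ ⟨(k + 1, p), m1⟩
    ⟨(k + 2, p), m2⟩ ⟨(k + 3, p), m3⟩ ?_ ?_ ?_ ?_ (nadj h hU hV hUV n1 n2)
  · refine ((adj_iff h m0 m1 (kk 0 1 (by norm_num))).1 (Or.inl ?_)).1
    rcases hk with rfl | rfl | rfl <;> simp [adj]
  · refine ((adj_iff h m2 m3 (kk 2 3 (by norm_num))).1 (Or.inl ?_)).1
    rcases hk with rfl | rfl | rfl <;> simp [adj]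
  · intro x hx
    simp only [List.mem_cons, List.not_mem_nil, or_false] at hx
    rcases hx with rfl | rfl | rfl | rfl
    · exact key 0 (by norm_num) m0
    · exact key 1 (by norm_num) m1
    · exact key 2 (by norm_num) m2
    · exact key 3 (by norm_num) m3
  · intro x hx y hy
    simp only [List.mem_cons, List.not_mem_nil, or_false] at hx hy
    rcases hx with rfl | rfl <;> rcases hy with rfl | rfl
    · refine nadj h m0 m2 (kk 0 2 (by norm_num)) ?_ ?_ <;>
        rcases hk with rfl | rfl | rfl <;> simp [adj]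
    · refine nadj h m0 m3 (kk 0 3 (by norm_num)) ?_ ?_ <;>
        rcases hk with rfl | rfl | rfl <;> simp [adj]
    · refine nadj h m1 m2 (kk 1 2 (by norm_num)) ?_ ?_ <;>
        rcases hk with rfl | rfl | rfl <;> simp [adj]
    · refine nadj h m1 m3 (kk 1 3 (by norm_num)) ?_ ?_ <;>
        rcases hk with rfl | rfl | rfl <;> simp [adj]

theorem t_forceG (h1 : S_mem) (h3 : S_forceNear) (h4 : S_forceFar) (I : Inst)
    (d : {w : VL // w ∈ vs I} → {w : VL // w ∈ vs I} → ℝ) (hFP : FP d) (dmin dmax : ℝ)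
    (hle : dmin ≤ dmax)
    (h : ∀ w z, (gr I).Adj w z ↔ w ≠ z ∧ dmin ≤ d w z ∧ d w z ≤ dmax) (u v : Lb)
    (hu : (0, (u, u)) ∈ vs I) (hv : (0, (v, v)) ∈ vs I) (huv : u ≠ v) :
    (near I u v = true → d ⟨(0, (u, u)), hu⟩ ⟨(0, (v, v)), hv⟩ < dmin) ∧
    (far I u v = true → ¬ d ⟨(0, (u, u)), hu⟩ ⟨(0, (v, v)), hv⟩ < dmin) := by
  have bu : u ∈ base I := by
    rcases (h1 I _).1 hu with hh | hh | hh
    · exact hh.2.2
    · exact absurd hh.1 (by norm_num)
    · exact absurd hh.1 (by norm_num)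
  have bv : v ∈ base I := by
    rcases (h1 I _).1 hv with hh | hh | hh
    · exact hh.2.2
    · exact absurd hh.1 (by norm_num)
    · exact absurd hh.1 (by norm_num)
  constructor
  · intro hn
    have mem : ∀ k, 1 ≤ k → k ≤ 4 → ((k, (u, v)) : VL) ∈ vs I := fun k k1 k2 =>
      (h1 I _).2 (Or.inr (Or.inl ⟨k1, k2, bu, bv, hn⟩))
    refine gadget h3 hFP hle h 1 (u, v) (Or.inl rfl) (mem 1 (by norm_num) (by norm_num))
      (mem 2 (by norm_num) (by norm_num)) (mem 3 (by norm_num) (by norm_num))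
      (mem 4 (by norm_num) (by norm_num)) _ _ hu hv (Or.inl rfl) (Or.inl rfl) ?_ ?_ ?_ ?_ ?_
    · intro e
      exact huv (congrArg (fun z : VL => z.2.1) e)
    · intro i hi
      interval_cases i <;> simp [adj]
    · intro i hi
      interval_cases i <;> simp [adj]
    · simp [adj]
    · simp [adj]
  · intro hf
    have hf' : far I v u = true := by
      unfold far at hf ⊢
      rw [Bool.or_comm]
      exact hf
    have mem : ∀ k, 5 ≤ k → k ≤ 13 → ((k, (u, v)) : VL) ∈ vs I := fun k k1 k2 =>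
      (h1 I _).2 (Or.inr (Or.inr ⟨k1, k2, bu, bv, hf⟩))
    have mem' : ∀ k, 5 ≤ k → k ≤ 13 → ((k, (v, u)) : VL) ∈ vs I := fun k k1 k2 =>
      (h1 I _).2 (Or.inr (Or.inr ⟨k1, k2, bv, bu, hf'⟩))
    have mx := mem 5 (by norm_num) (by norm_num)
    have my := mem' 5 (by norm_num) (by norm_num)
    have hvu : v ≠ u := huv.symm
    refine h4 _ d dmin hFP ⟨(0, (u, u)), hu⟩ ⟨(0, (v, v)), hv⟩ ⟨(5, (u, v)), mx⟩
      ⟨(5, (v, u)), my⟩ ?_ ?_ ?_ ?_ ?_
    · exact ((adj_iff h mx hu (by simp)).1 (Or.inl (by simp [adj]))).1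
    · exact ((adj_iff h my hv (by simp)).1 (Or.inl (by simp [adj]))).1
    · refine gadget h3 hFP hle h 6 (u, v) (Or.inr (Or.inl rfl)) (mem 6 (by norm_num) (by norm_num))
        (mem 7 (by norm_num) (by norm_num)) (mem 8 (by norm_num) (by norm_num))
        (mem 9 (by norm_num) (by norm_num)) _ _ hv mx (Or.inl rfl) (Or.inr rfl) (by simp) ?_ ?_ ?_ ?_
      · intro i hi
        interval_cases i <;> simp [adj]
      · intro i hi
        interval_cases i <;> simp [adj]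
      · simp [adj]
      · simp [adj, hvu]
    · refine gadget h3 hFP hle h 6 (v, u) (Or.inr (Or.inl rfl)) (mem' 6 (by norm_num) (by norm_num))
        (mem' 7 (by norm_num) (by norm_num)) (mem' 8 (by norm_num) (by norm_num))
        (mem' 9 (by norm_num) (by norm_num)) _ _ hu my (Or.inl rfl) (Or.inr rfl) (by simp) ?_ ?_ ?_ ?_
      · intro i hi
        interval_cases i <;> simp [adj]
      · intro i hi
        interval_cases i <;> simp [adj]
      · simp [adj]
      · simp [adj, huv]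
    · refine gadget h3 hFP hle h 10 (u, v) (Or.inr (Or.inr rfl)) (mem 10 (by norm_num) (by norm_num))
        (mem 11 (by norm_num) (by norm_num)) (mem 12 (by norm_num) (by norm_num))
        (mem 13 (by norm_num) (by norm_num)) _ _ mx my (Or.inr rfl) (Or.inr rfl) ?_ ?_ ?_ ?_ ?_
      · intro e
        exact huv (congrArg (fun z : VL => z.2.1) e)
      · intro i hi
        interval_cases i <;> simp [adj]
      · intro i hi
        interval_cases i <;> simp [adj]
      · simp [adj]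
      · simp [adj]

theorem t_noG : Pool.Agent.H717.PM.S_noG := by
  classical
  intro I hg d0 hfp dmin dmax hdd hG
  have h1 := Pool.Agent.H962.PR.t_mem
  have hb : ∀ u : Lb, u ∈ base I → ((0, (u, u)) : VL) ∈ vs I := fun u hu =>
    (h1 I _).2 (Or.inl ⟨rfl, rfl, hu⟩)
  obtain ⟨n, hn, hI⟩ := hg.1
  have x0 : (0 : ℕ) ∈ I.1 := by
    rw [hI, List.mem_range]
    omega
  let vx : Lb → {w : VL // w ∈ vs I} := fun u =>
    if h : ((0, (u, u)) : VL) ∈ vs I then ⟨(0, (u, u)), h⟩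
    else ⟨(0, ((0, 0), (0, 0))), hb _ (base0 I 0 0 (by norm_num) x0)⟩
  let d : Lb → Lb → ℝ := fun u v => d0 (vx u) (vx v)
  have hd : FP d := ⟨fun x y => hfp.comm _ _, fun x y z u => hfp.fp _ _ _ _⟩
  have hvx : ∀ (u : Lb) (hu : u ∈ base I), vx u = ⟨(0, (u, u)), hb u hu⟩ := fun u hu =>
    dif_pos (hb u hu)
  have kn : ∀ u v : Lb, u ∈ base I → v ∈ base I → u ≠ v → near I u v = true → d u v < dmin := by
    intro u v hu hv huv h
    have h4 := (t_forceG h1 Pool.Agent.H922.PR.t_forceNear Pool.Agent.H922.PR.t_forceFar I d0 hfp dmin dmax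
      hdd hG u v (hb u hu) (hb v hv) huv).1 h
    show d0 (vx u) (vx v) < dmin
    rw [hvx u hu, hvx v hv]
    exact h4
  have kf : ∀ u v : Lb, u ∈ base I → v ∈ base I → u ≠ v → far I u v = true → ¬ d u v < dmin := by
    intro u v hu hv huv h
    have h4 := (t_forceG h1 Pool.Agent.H922.PR.t_forceNear Pool.Agent.H922.PR.t_forceFar I d0 hfp dmin dmax
      hdd hG u v (hb u hu) (hb v hv) huv).2 h
    show ¬ d0 (vx u) (vx v) < dmin
    rw [hvx u hu, hvx v hv]
    exact h4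
  have hp : Pat d dmin I.1 (fun x => ((1, x) : Lb)) (fun x => (2, x)) (fun x => (0, x)) := by
    constructor
    · intro x hx y hy hxy
      exact kn _ _ (base0 I 1 x (by norm_num) hx) (base0 I 1 y (by norm_num) hy)
        (by simpa using hxy) (by simp [near, nearB, hxy])
    · intro x hx y hy hxy
      exact kn _ _ (base0 I 2 x (by norm_num) hx) (base0 I 2 y (by norm_num) hy)
        (by simpa using hxy) (by simp [near, nearB, hxy])
    · intro x hx
      exact kn _ _ (base0 I 1 x (by norm_num) hx) (base0 I 0 x (by norm_num) hx)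
        (by simp) (by simp [near, nearB])
    · intro x hx
      exact kn _ _ (base0 I 2 x (by norm_num) hx) (base0 I 0 x (by norm_num) hx)
        (by simp) (by simp [near, nearB])
    · intro x hx
      exact kf _ _ (base0 I 1 x (by norm_num) hx) (base0 I 2 x (by norm_num) hx)
        (by simp) (by simp [far, farB])
    · intro x hx y hy hxy
      exact kf _ _ (base0 I 0 x (by norm_num) hx) (base0 I 0 y (by norm_num) hy)
        (by simpa using hxy) (by simp [far, farB, hxy])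
  refine betweenness_of hd hp (ts := I.2) hg fun s hs => ?_
  obtain ⟨k, hk, rfl⟩ : ∃ k, k < I.2.length ∧ tr I k = s := by
    obtain ⟨k, hk, rfl⟩ := List.getElem_of_mem hs
    exact ⟨k, hk, by unfold tr; rw [List.getD_eq_getElem _ _ hk]⟩
  obtain ⟨t1, t2, t3, -⟩ := hg.2 _ hs
  refine ⟨⟨(3, k), ?_, ?_, ?_⟩, ⟨(4, k), ?_, ?_, ?_⟩⟩
  · exact kn _ _ (base3 I k hk) (base0 I 0 _ (by norm_num) t1) (by simp) (by simp [near, nearB])
  · exact kn _ _ (base3 I k hk) (base0 I 0 _ (by norm_num) t2) (by simp) (by simp [near, nearB])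
  · exact kf _ _ (base3 I k hk) (base0 I 0 _ (by norm_num) t3) (by simp) (by simp [far, farB])
  · exact kn _ _ (base4 I k hk) (base0 I 0 _ (by norm_num) t2) (by simp) (by simp [near, nearB])
  · exact kn _ _ (base4 I k hk) (base0 I 0 _ (by norm_num) t3) (by simp) (by simp [near, nearB])
  · exact kf _ _ (base4 I k hk) (base0 I 0 _ (by norm_num) t1) (by simp) (by simp [far, farB])

end Pool.Agent.H190.PM
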